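import Pool.Agent.Helper96.VF.All3

/-!
# MP_6829b3_nt: an exact formula for `f(n)` for every `n`, and the value of the limit

`f(n)` is the largest size of a subset of `{1,…,n}` in which no element divides two others.
For every `n`

`f(n) = ∑_{m ≤ n, (m,6)=1} (g(⌊n/m⌋) - κ(⌊n/m⌋))`,

where `g(y) = max(H(y) - 1, H(⌊y/2⌋))`, `H(y)` is the number of powers of `3` plus the number of powers
of `4` (exponents `≥ 0`) that are `≤ y`, and `κ(y) = 1` if `y` lies in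
`[16·4^j, 20·4^j) ∩ [10·3^b, 12·3^b)` for some `j, b ≥ 0` and `0` otherwise.
-/

set_option autoImplicit false

namespace Pool.Agent.Results.MP_6829b3_nt.ExactFormula

/-- Admissible: no element of `A` divides two other distinct elements of `A`. -/
def Adm (A : Finset ℕ) : Prop :=
  ∀ a ∈ A, ∀ b ∈ A, ∀ d ∈ A, a ≠ b → a ≠ d → b ≠ d → ¬ (a ∣ b ∧ a ∣ d)

/-- `H(y)`: the number of powers `3^b ≤ y` plus the number of powers `4^j ≤ y` (`b, j ≥ 0`). -/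
def H (y : ℕ) : ℕ := if y = 0 then 0 else Nat.log 3 y + Nat.log 4 y + 2

/-- `g(y) = max (H(y) - 1, H(y/2))`. -/
def g (y : ℕ) : ℕ := max (H y - 1) (H (y / 2))

/-- `y` lies in `[16·4^j, 20·4^j) ∩ [10·3^b, 12·3^b)` for some `j, b`. -/
def Kap (y : ℕ) : Prop :=
  (∃ j : ℕ, 16 * 4 ^ j ≤ y ∧ y < 20 * 4 ^ j) ∧ (∃ b : ℕ, 10 * 3 ^ b ≤ y ∧ y < 12 * 3 ^ b)

/-- The integers in `{1,…,n}` coprime to `6`. -/
def Cop (n : ℕ) : Finset ℕ := (Finset.Icc 1 n).filter (fun m => Nat.Coprime m 6)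

open Classical in
/-- `F(n) = ∑_{m ≤ n, (m,6)=1} (g(n/m) - κ(n/m))`, `n/m` rounded down. -/
noncomputable def F (n : ℕ) : ℕ := ∑ m ∈ Cop n, (g (n / m) - if Kap (n / m) then 1 else 0)

/-- `μ([a,b) ∩ [c,d))` for `μ = dy/y²`: the number `max(0, 1/max(a,c) - 1/min(b,d))`. -/
noncomputable def mu (a b c d : ℝ) : ℝ := max 0 (1 / max a c - 1 / min b d)

/-- `μ([2·4^j,4·4^j) ∩ [2·3^b,3·3^b)) - μ([16·4^j,20·4^j) ∩ [10·3^b,12·3^b))` for `x = (j,b)`. -/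
noncomputable def trm (x : ℕ × ℕ) : ℝ :=
  mu (2 * 4 ^ x.1) (4 * 4 ^ x.1) (2 * 3 ^ x.2) (3 * 3 ^ x.2) -
    mu (16 * 4 ^ x.1) (20 * 4 ^ x.1) (10 * 3 ^ x.2) (12 * 3 ^ x.2)

/-- `λ = 11/18 + (1/3) ∑_{j,b ≥ 0} trm(j,b)`. -/
noncomputable def lam : ℝ := 11 / 18 + (∑' x : ℕ × ℕ, trm x) / 3

theorem F_eq (n : ℕ) : F n = Pool.Agent.Helper96.VF.F n := rfl
theorem lam_eq : lam = Pool.Agent.Helper96.VF.lam := rfl

/-- `F(n)` is the largest size of an admissible subset of `{1,…,n}` for every `n`; it equals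
`λ n + O(1 + log n)`; and `λ = 0.672965651…` is irrational. -/
theorem result :
    (∀ n : ℕ, IsGreatest {k : ℕ | ∃ A : Finset ℕ, A ⊆ Finset.Icc 1 n ∧ Adm A ∧ A.card = k} (F n)) ∧
    (∃ C : ℝ, ∀ n : ℕ, 1 ≤ n → |(F n : ℝ) - lam * n| ≤ C * (1 + Real.log n)) ∧
    Summable trm ∧ 0.672965651 < lam ∧ lam < 0.672965652 ∧ Irrational lam := by
  refine ⟨fun n => ?_, ?_, ?_, ?_⟩
  · exact Pool.Agent.Helper96.VF.isGreatest_F Pool.Agent.Helper96.VF.aUP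
      Pool.Agent.Helper96.VF.aADM' Pool.Agent.Helper96.VF.aLOW' n
  · exact Pool.Agent.Helper96.VF.aASM.1
  · exact Pool.Agent.Helper96.VF.summable_trm
  · exact ⟨Pool.Agent.Helper96.VF.aNUM.1, Pool.Agent.Helper96.VF.aNUM.2,
      Pool.Agent.Helper96.VF.aIrr⟩

end Pool.Agent.Results.MP_6829b3_nt.ExactFormula
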